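import Mathlib

/-!
# First-order logic with transitive closure over digraphs with one set of vertices
-/

set_option autoImplicit false

namespace Pool.Agent.H255R3.OS

/-- Formulas of first-order logic with transitive closure over a binary relation symbol `E` and a
unary relation symbol `U`, with free variables `Fin n`. `ex φ` quantifies the variable `0` of `φ`
(the other variables are shifted by one). `tc φ i j` says that the values of the variables `i` and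
`j` are related by the reflexive and transitive closure of the binary relation that `φ` defines
in its variables `0` and `1` (the other variables are shifted by two). -/
inductive Fo : ℕ → Type
  | eq {n : ℕ} (i j : Fin n) : Fo n
  | edge {n : ℕ} (i j : Fin n) : Fo n
  | uni {n : ℕ} (i : Fin n) : Fo n
  | neg {n : ℕ} (φ : Fo n) : Fo n
  | and {n : ℕ} (φ ψ : Fo n) : Fo n
  | ex {n : ℕ} (φ : Fo (n + 1)) : Fo n
  | tc {n : ℕ} (φ : Fo (n + 2)) (i j : Fin n) : Fo n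

/-- Truth of a formula in the structure `(V, E, U)` under the assignment `ν`. -/
def Fo.Holds {V : Type} (E : V → V → Prop) (U : V → Prop) : {n : ℕ} → Fo n → (Fin n → V) → Prop
  | _, .eq i j, ν => ν i = ν j
  | _, .edge i j, ν => E (ν i) (ν j)
  | _, .uni i, ν => U (ν i)
  | _, .neg φ, ν => ¬ φ.Holds E U ν
  | _, .and φ ψ, ν => φ.Holds E U ν ∧ ψ.Holds E U ν
  | _, .ex φ, ν => ∃ a : V, φ.Holds E U (Fin.cons a ν)
  | _, .tc φ i j, ν =>
      Relation.ReflTransGen (fun a b : V => φ.Holds E U (Fin.cons a (Fin.cons b ν))) (ν i) (ν j)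

/-- lifting a renaming of variables under one binder -/
def liftR {n m : ℕ} (f : Fin n → Fin m) : Fin (n + 1) → Fin (m + 1) :=
  Fin.cons 0 (fun i => (f i).succ)

theorem cons_comp_liftR {V : Type} {n m : ℕ} (f : Fin n → Fin m) (a : V) (ν : Fin m → V) :
    (Fin.cons a ν : Fin (m + 1) → V) ∘ liftR f = Fin.cons a (ν ∘ f) := by
  funext i
  refine Fin.cases ?_ (fun j => ?_) i
  · simp [liftR]
  · simp [liftR]

/-- renaming of free variables -/
def Fo.rename : {n m : ℕ} → (Fin n → Fin m) → Fo n → Fo m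
  | _, _, f, .eq i j => .eq (f i) (f j)
  | _, _, f, .edge i j => .edge (f i) (f j)
  | _, _, f, .uni i => .uni (f i)
  | _, _, f, .neg φ => .neg (φ.rename f)
  | _, _, f, .and φ ψ => .and (φ.rename f) (ψ.rename f)
  | _, _, f, .ex φ => .ex (φ.rename (liftR f))
  | _, _, f, .tc φ i j => .tc (φ.rename (liftR (liftR f))) (f i) (f j)

theorem Fo.holds_rename {V : Type} (E : V → V → Prop) (U : V → Prop) {n : ℕ} (φ : Fo n) :
    ∀ {m : ℕ} (f : Fin n → Fin m) (ν : Fin m → V),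
      (φ.rename f).Holds E U ν ↔ φ.Holds E U (ν ∘ f) := by
  induction φ with
  | eq i j => intro m f ν; simp [Fo.rename, Fo.Holds]
  | edge i j => intro m f ν; simp [Fo.rename, Fo.Holds]
  | uni i => intro m f ν; simp [Fo.rename, Fo.Holds]
  | neg φ ih => intro m f ν; simp [Fo.rename, Fo.Holds, ih]
  | and φ ψ ih1 ih2 => intro m f ν; simp [Fo.rename, Fo.Holds, ih1, ih2]
  | ex φ ih =>
      intro m f ν
      simp only [Fo.rename, Fo.Holds, ih, cons_comp_liftR]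
  | tc φ i j ih =>
      intro m f ν
      simp only [Fo.rename, Fo.Holds, ih, cons_comp_liftR]
      rfl

/-- A query. -/
abbrev Qry (n : ℕ) := ∀ (V : Type), (V → V → Prop) → (V → Prop) → (Fin n → V) → Prop

/-- The query is defined by a formula on all structures. -/
def Dfn {n : ℕ} (Q : Qry n) : Prop :=
  ∃ φ : Fo n, ∀ (V : Type) (E : V → V → Prop) (U : V → Prop) (ν : Fin n → V),
    φ.Holds E U ν ↔ Q V E U ν

theorem Dfn.congr {n : ℕ} {Q Q' : Qry n} (h : Dfn Q)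
    (hh : ∀ V E U ν, Q V E U ν ↔ Q' V E U ν) : Dfn Q' := by
  obtain ⟨φ, hφ⟩ := h
  exact ⟨φ, fun V E U ν => (hφ V E U ν).trans (hh V E U ν)⟩

theorem Dfn.eq {n : ℕ} (i j : Fin n) : Dfn (fun _ _ _ ν => ν i = ν j) :=
  ⟨.eq i j, fun _ _ _ _ => Iff.rfl⟩

theorem Dfn.edge {n : ℕ} (i j : Fin n) : Dfn (fun _ E _ ν => E (ν i) (ν j)) :=
  ⟨.edge i j, fun _ _ _ _ => Iff.rfl⟩

theorem Dfn.uni {n : ℕ} (i : Fin n) : Dfn (fun _ _ U ν => U (ν i)) :=
  ⟨.uni i, fun _ _ _ _ => Iff.rfl⟩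

theorem Dfn.neg {n : ℕ} {Q : Qry n} (h : Dfn Q) : Dfn (fun V E U ν => ¬ Q V E U ν) := by
  obtain ⟨φ, hφ⟩ := h
  exact ⟨.neg φ, fun V E U ν => by simp [Fo.Holds, hφ]⟩

theorem Dfn.and {n : ℕ} {Q Q' : Qry n} (h : Dfn Q) (h' : Dfn Q') :
    Dfn (fun V E U ν => Q V E U ν ∧ Q' V E U ν) := by
  obtain ⟨φ, hφ⟩ := h
  obtain ⟨ψ, hψ⟩ := h'
  exact ⟨.and φ ψ, fun V E U ν => by simp [Fo.Holds, hφ, hψ]⟩

theorem Dfn.or {n : ℕ} {Q Q' : Qry n} (h : Dfn Q) (h' : Dfn Q') :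
    Dfn (fun V E U ν => Q V E U ν ∨ Q' V E U ν) :=
  ((h.neg.and h'.neg).neg).congr (fun V E U ν => by tauto)

theorem Dfn.imp {n : ℕ} {Q Q' : Qry n} (h : Dfn Q) (h' : Dfn Q') :
    Dfn (fun V E U ν => Q V E U ν → Q' V E U ν) :=
  ((h.and h'.neg).neg).congr (fun V E U ν => by tauto)

theorem Dfn.ex {n : ℕ} {Q : Qry (n + 1)} (h : Dfn Q) :
    Dfn (fun V E U ν => ∃ a : V, Q V E U (Fin.cons a ν)) := by
  obtain ⟨φ, hφ⟩ := h
  exact ⟨.ex φ, fun V E U ν => by simp [Fo.Holds, hφ]⟩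

theorem Dfn.all {n : ℕ} {Q : Qry (n + 1)} (h : Dfn Q) :
    Dfn (fun V E U ν => ∀ a : V, Q V E U (Fin.cons a ν)) :=
  (h.neg.ex.neg).congr (fun V E U ν => by push Not; rfl)

theorem Dfn.tc {n : ℕ} {Q : Qry (n + 2)} (h : Dfn Q) (i j : Fin n) :
    Dfn (fun V E U ν => Relation.ReflTransGen
      (fun a b : V => Q V E U (Fin.cons a (Fin.cons b ν))) (ν i) (ν j)) := by
  obtain ⟨φ, hφ⟩ := h
  refine ⟨.tc φ i j, fun V E U ν => ?_⟩
  simp only [Fo.Holds, hφ]

theorem Dfn.ren {n m : ℕ} {Q : Qry n} (h : Dfn Q) (f : Fin n → Fin m) :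
    Dfn (fun V E U ν => Q V E U (ν ∘ f)) := by
  obtain ⟨φ, hφ⟩ := h
  exact ⟨φ.rename f, fun V E U ν => by rw [Fo.holds_rename, hφ]⟩

end Pool.Agent.H255R3.OS
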