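import Pool.Agent.H255R3.AR.Core

/-!
# Games in which the positions of one player induce a digraph of bounded independence number
-/

set_option autoImplicit false

open Classical

namespace Pool.Agent.H255R3.OS

open Relation
open Pool.Agent.H255R3.AR (Win IndepLe Ball closed_eq ExU ExU_sound ExU_complete Trap trap_not_win
  trap_compl)

variable {V : Type}

/-! ### The universal positions are bounded -/

/-- A move of the existential player. -/
def StA (E : V → V → Prop) (U : V → Prop) (a b : V) : Prop := ¬ U a ∧ E a b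

/-- The existential player can go, with moves of his own only, to `t` or to a universal position
in `X`. -/
def CanA (E : V → V → Prop) (U : V → Prop) (t : V) (X : V → Prop) (w : V) : Prop :=
  ∃ p, ReflTransGen (StA E U) w p ∧ (p = t ∨ (U p ∧ X p))

/-- The set given by a set of universal positions. -/
def RegA (E : V → V → Prop) (U : V → Prop) (t : V) (X : V → Prop) (w : V) : Prop :=
  w ≠ t ∧ ((¬ U w ∧ ¬ CanA E U t X w) ∨ (U w ∧ ¬ X w))

/-- The query that defines losing. -/
def LoseA (E : V → V → Prop) (U : V → Prop) (k : ℕ) (t v : V) : Prop :=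
  ExU (Ball E fun w => U w ∧ w ≠ t) (fun X => Trap E U (RegA E U t X) v) k (fun _ => False)

theorem canA_of_win {E : V → V → Prop} {U : V → Prop} {t w : V} (h : Win E U t w) :
    ¬ U w → CanA E U t (fun w => (U w ∧ w ≠ t) ∧ Win E U t w) w := by
  induction h with
  | target => exact fun _ => ⟨t, .refl, Or.inl rfl⟩
  | @some a b ha hab hb ih =>
    intro _
    by_cases hbt : b = t
    · exact ⟨b, .single ⟨ha, hab⟩, Or.inl hbt⟩
    · by_cases hU : U b
      · exact ⟨b, .single ⟨ha, hab⟩, Or.inr ⟨hU, ⟨hU, hbt⟩, hb⟩⟩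
      · obtain ⟨p, hp, hp'⟩ := ih hU
        exact ⟨p, .head ⟨ha, hab⟩ hp, hp'⟩
  | all hv _ _ _ => exact fun h => absurd hv h

theorem win_of_canA {E : V → V → Prop} {U : V → Prop} {t w : V}
    (h : CanA E U t (fun w => (U w ∧ w ≠ t) ∧ Win E U t w) w) : Win E U t w := by
  obtain ⟨p, hp, hp'⟩ := h
  have hw : Win E U t p := by
    rcases hp' with h | h
    · rw [h]; exact .target
    · exact h.2.2
  induction hp using ReflTransGen.head_induction_on with
  | refl => exact hw
  | head h _ ih => exact .some h.1 h.2 ih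

theorem loseA_iff [Finite V] {E : V → V → Prop} {U : V → Prop} {k : ℕ} {t : V}
    (h2 : IndepLe E (fun w => U w ∧ w ≠ t) k) (v : V) :
    LoseA E U k t v ↔ ¬ Win E U t v := by
  constructor
  · intro h
    obtain ⟨X, h⟩ := ExU_sound k _ h
    exact trap_not_win h fun h => h.1 rfl
  · intro h
    obtain ⟨P, hP, hP'⟩ := closed_eq h2 (S := fun w => (U w ∧ w ≠ t) ∧ Win E U t w)
      (fun a ha => ha.1) (fun a b ha hb hab => ⟨hb, by
        rcases ha.2 with _ | ⟨h3, _, _⟩ | ⟨_, _, h3⟩
        · exact absurd rfl ha.1.2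
        · exact absurd ha.1.1 h3
        · exact h3 b hab⟩)
    refine ExU_complete k _ P hP ?_
    have hX : (fun w => False ∨ ∃ q ∈ P, Ball E (fun w => U w ∧ w ≠ t) q w) =
        fun w => (U w ∧ w ≠ t) ∧ Win E U t w := by
      funext w
      apply propext
      rw [false_or, ← hP']
    rw [hX]
    have hR : RegA E U t (fun w => (U w ∧ w ≠ t) ∧ Win E U t w) = fun w => ¬ Win E U t w := by
      funext w
      apply propext
      constructor
      · rintro ⟨h3, ⟨h4, h5⟩ | ⟨h4, h5⟩⟩
        · exact fun h6 => h5 (canA_of_win h6 h4)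
        · exact fun h6 => h5 ⟨⟨h4, h3⟩, h6⟩
      · intro h3
        refine ⟨fun h4 => h3 (by rw [h4]; exact .target), ?_⟩
        by_cases h4 : U w
        · exact Or.inr ⟨h4, fun h5 => h3 h5.2⟩
        · exact Or.inl ⟨h4, fun h5 => h3 (win_of_canA h5)⟩
    rw [hR]
    exact trap_compl E U t v h

/-! ### The existential positions are bounded -/

/-- A move of the universal player that avoids `t`. -/
def StB (E : V → V → Prop) (U : V → Prop) (t a b : V) : Prop := (U a ∧ a ≠ t) ∧ (E a b ∧ b ≠ t)

/-- The universal player can go, with moves of his own only, to an existential position in `Y`, to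
a position of his without moves or to a cycle. -/
def Esc (E : V → V → Prop) (U : V → Prop) (t : V) (Y : V → Prop) (w : V) : Prop :=
  ∃ p, ReflTransGen (StB E U t) w p ∧
    ((¬ U p ∧ Y p) ∨ (U p ∧ ((∀ x, ¬ E p x) ∨ ∃ q, StB E U t p q ∧
      ReflTransGen (StB E U t) q p)))

/-- The set given by a set of existential positions. -/
def RegB (E : V → V → Prop) (U : V → Prop) (t : V) (Y : V → Prop) (w : V) : Prop :=
  w ≠ t ∧ ((¬ U w ∧ Y w) ∨ (U w ∧ Esc E U t Y w))

/-- The query that defines losing. -/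
def LoseB (E : V → V → Prop) (U : V → Prop) (k : ℕ) (t v : V) : Prop :=
  ExU (Ball E fun w => ¬ U w) (fun Y => Trap E U (RegB E U t Y) v) k (fun _ => False)

theorem not_cycle_of_win {E : V → V → Prop} {U : V → Prop} {t p : V} (h : Win E U t p) :
    ¬ ∃ q, StB E U t p q ∧ ReflTransGen (StB E U t) q p := by
  induction h with
  | target => rintro ⟨q, h1, _⟩; exact h1.1.2 rfl
  | some hv _ _ _ => rintro ⟨q, h1, _⟩; exact hv h1.1.1
  | @all a _ _ _ ih =>
    rintro ⟨q, h1, h2⟩
    apply ih q h1.2.1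
    rcases h2.cases_head with h3 | ⟨c, h3, h4⟩
    · rw [← h3] at h1
      exact ⟨q, h1, .refl⟩
    · exact ⟨c, h3, h4.tail h1⟩

theorem not_win_of_esc {E : V → V → Prop} {U : V → Prop} {t w : V} (hwt : w ≠ t)
    (h : Esc E U t (fun w => ¬ U w ∧ ¬ Win E U t w) w) : ¬ Win E U t w := by
  obtain ⟨p, hp, hp'⟩ := h
  have hpt : p ≠ t := by
    rcases hp.cases_tail with h | ⟨c, _, h⟩
    · rw [h]; exact hwt
    · exact h.2.2
  have hw : ¬ Win E U t p := by
    rcases hp' with h | ⟨h1, h2 | h2⟩
    · exact h.2.2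
    · intro h
      rcases h with _ | ⟨h3, _, _⟩ | ⟨_, ⟨x, h3⟩, _⟩
      · exact hpt rfl
      · exact h3 h1
      · exact h2 x h3
    · exact fun h => not_cycle_of_win h h2
  clear hp' hpt
  induction hp using ReflTransGen.head_induction_on with
  | refl => exact hw
  | @head a c h h' ih =>
    intro h3
    refine ih h.2.2 ?_
    rcases h3 with _ | ⟨h4, _, _⟩ | ⟨_, _, h4⟩
    · exact absurd rfl h.1.2
    · exact absurd h.1.1 h4
    · exact h4 c h.2.1

theorem esc_of_not_win [Finite V] {E : V → V → Prop} {U : V → Prop} {t w : V}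
    (h : ¬ Win E U t w) : Esc E U t (fun w => ¬ U w ∧ ¬ Win E U t w) w := by
  by_contra hc
  have hc1 : ∀ p, ReflTransGen (StB E U t) w p → ¬ U p → Win E U t p := by
    intro p hp hUp
    by_contra h1
    exact hc ⟨p, hp, Or.inl ⟨hUp, hUp, h1⟩⟩
  have hc2 : ∀ p, ReflTransGen (StB E U t) w p → U p → ∃ x, E p x := by
    intro p hp hUp
    by_contra h1
    push Not at h1
    exact hc ⟨p, hp, Or.inr ⟨hUp, Or.inl h1⟩⟩
  have hc3 : ∀ p, ReflTransGen (StB E U t) w p → ¬ TransGen (StB E U t) p p := by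
    intro p hp h1
    obtain ⟨q, h2, h3⟩ := TransGen.head'_iff.1 h1
    exact hc ⟨p, hp, Or.inr ⟨h2.1.1, Or.inr ⟨q, h2, h3⟩⟩⟩
  let r : {p // ReflTransGen (StB E U t) w p} → {p // ReflTransGen (StB E U t) w p} → Prop :=
    fun a b => TransGen (StB E U t) b.1 a.1
  have : IsTrans _ r := ⟨fun a b c h1 h2 => TransGen.trans h2 h1⟩
  have : Std.Irrefl r := ⟨fun a h1 => hc3 a.1 a.2 h1⟩
  have hwf : WellFounded r := Finite.wellFounded_of_trans_of_irrefl r
  have key : ∀ p : {p // ReflTransGen (StB E U t) w p}, Win E U t p.1 := by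
    intro p
    induction p using hwf.induction with
    | _ p ih =>
      by_cases hpt : p.1 = t
      · rw [hpt]; exact .target
      · by_cases hUp : U p.1
        · refine .all hUp (hc2 p.1 p.2 hUp) fun x hx => ?_
          by_cases hxt : x = t
          · rw [hxt]; exact .target
          · exact ih ⟨x, p.2.tail ⟨⟨hUp, hpt⟩, hx, hxt⟩⟩ (.single ⟨⟨hUp, hpt⟩, hx, hxt⟩)
        · exact hc1 p.1 p.2 hUp
  exact h (key ⟨w, .refl⟩)

theorem loseB_iff [Finite V] {E : V → V → Prop} {U : V → Prop} {k : ℕ} {t : V}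
    (h2 : IndepLe E (fun w => ¬ U w) k) (v : V) :
    LoseB E U k t v ↔ ¬ Win E U t v := by
  constructor
  · intro h
    obtain ⟨X, h⟩ := ExU_sound k _ h
    exact trap_not_win h fun h => h.1 rfl
  · intro h
    obtain ⟨P, hP, hP'⟩ := closed_eq h2 (S := fun w => ¬ U w ∧ ¬ Win E U t w)
      (fun a ha => ha.1) (fun a b ha hb hab => ⟨hb, fun hw => ha.2 (.some ha.1 hab hw)⟩)
    refine ExU_complete k _ P hP ?_
    have hX : (fun w => False ∨ ∃ q ∈ P, Ball E (fun w => ¬ U w) q w) =
        fun w => ¬ U w ∧ ¬ Win E U t w := by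
      funext w
      apply propext
      rw [false_or, ← hP']
    rw [hX]
    have hR : RegB E U t (fun w => ¬ U w ∧ ¬ Win E U t w) = fun w => ¬ Win E U t w := by
      funext w
      apply propext
      constructor
      · rintro ⟨h3, ⟨h4, h5⟩ | ⟨h4, h5⟩⟩
        · exact h5.2
        · exact not_win_of_esc h3 h5
      · intro h3
        refine ⟨fun h4 => h3 (by rw [h4]; exact .target), ?_⟩
        by_cases h4 : U w
        · exact Or.inr ⟨h4, esc_of_not_win h3⟩
        · exact Or.inl ⟨h4, h4, h3⟩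
    rw [hR]
    exact trap_compl E U t v h

end Pool.Agent.H255R3.OS
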