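import Pool.Agent.H255R3.OS.Games
import Pool.Agent.H255R3.OS.Fo

/-!
# Definability of alternating reachability in first-order logic with transitive closure
-/

set_option autoImplicit false

namespace Pool.Agent.H255R3.OS

open Relation
open Pool.Agent.H255R3.AR (Win IndepLe Ball ExU ExU_sound Trap trap_not_win)

theorem cons_comp_cons {V : Type} {m : ℕ} (v : Fin m) (ν : Fin m → V) :
    ν ∘ (Fin.cons v id : Fin (m + 1) → Fin m) = Fin.cons (ν v) ν := by
  funext i
  refine Fin.cases ?_ (fun j => ?_) i <;> simp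

theorem comp_lift_succ {V : Type} {m : ℕ} (w a : V) (ν : Fin m → V) :
    (Fin.cons w (Fin.cons a ν : Fin (m + 1) → V) : Fin (m + 2) → V) ∘ liftR Fin.succ =
      Fin.cons w ν := by
  funext i
  refine Fin.cases ?_ (fun j => ?_) i <;> simp [liftR]

theorem comp_swap {V : Type} {n m : ℕ} (f : Fin n → Fin m) (w a : V) (ν : Fin m → V) :
    (Fin.cons w (Fin.cons a ν : Fin (m + 1) → V) : Fin (m + 2) → V) ∘
      (Fin.cons (Fin.succ 0) (Fin.cons 0 (fun i => (f i).succ.succ) : Fin (n + 1) → Fin (m + 2)) :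
        Fin (n + 2) → Fin (m + 2)) = Fin.cons a (Fin.cons w (ν ∘ f) : Fin (n + 1) → V) := by
  funext i
  refine Fin.cases ?_ (fun j => ?_) i
  · rfl
  · refine Fin.cases ?_ (fun l => ?_) j
    · rfl
    · rfl

theorem dfn_trap {m : ℕ} (v : Fin m) {R : Qry (m + 1)} (hR : Dfn R) :
    Dfn (n := m) (fun V E U ν => Trap E U (fun w => R V E U (Fin.cons w ν)) (ν v)) := by
  have h1 : Dfn (n := m) (fun V E U ν => R V E U (Fin.cons (ν v) ν)) :=
    (hR.ren (Fin.cons v id : Fin (m + 1) → Fin m)).congr fun V E U ν => by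
      rw [cons_comp_cons]
  have h2 : Dfn (n := m + 2) (fun V E U ν => R V E U (ν ∘ liftR Fin.succ)) := hR.ren _
  have h3 : Dfn (n := m + 1) (fun V E U ν => ∀ x, E (ν 0) x →
      R V E U ((Fin.cons x ν : Fin (m + 2) → V) ∘ liftR Fin.succ)) :=
    ((Dfn.edge (Fin.succ 0) 0).imp h2).all.congr fun V E U ν => Iff.rfl
  have h4 : Dfn (n := m + 1) (fun V E U ν => ∃ x, E (ν 0) x ∧
      R V E U ((Fin.cons x ν : Fin (m + 2) → V) ∘ liftR Fin.succ)) :=
    ((Dfn.edge (Fin.succ 0) 0).and h2).ex.congr fun V E U ν => Iff.rfl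
  have h5 : Dfn (n := m + 1) (fun V E U ν => ∀ x, ¬ E (ν 0) x) :=
    ((Dfn.edge (n := m + 2) (Fin.succ 0) 0).neg).all.congr fun V E U ν => Iff.rfl
  have h6 : Dfn (n := m + 1) (fun V E U ν => R V E U ν →
      ((¬ U (ν 0) → ∀ x, E (ν 0) x →
        R V E U ((Fin.cons x ν : Fin (m + 2) → V) ∘ liftR Fin.succ)) ∧
      (U (ν 0) → (∃ x, E (ν 0) x ∧
        R V E U ((Fin.cons x ν : Fin (m + 2) → V) ∘ liftR Fin.succ)) ∨ ∀ x, ¬ E (ν 0) x))) :=
    hR.imp (((Dfn.uni 0).neg.imp h3).and ((Dfn.uni 0).imp (h4.or h5)))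
  refine (h1.and h6.all).congr fun V E U ν => ?_
  simp only [Trap, comp_lift_succ]
  rfl

/-- A functional on sets with parameters. -/
abbrev Fnl (n : ℕ) :=
  ∀ (V : Type), (V → V → Prop) → (V → Prop) → (Fin n → V) → (V → Prop) → Prop

/-- The functional maps definable sets to definable properties. -/
def UD {n : ℕ} (Φ : Fnl n) : Prop :=
  ∀ (m : ℕ) (f : Fin n → Fin m) (S : Qry (m + 1)), Dfn S →
    Dfn (n := m) (fun V E U ν => Φ V E U (ν ∘ f) (fun w => S V E U (Fin.cons w ν)))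

theorem ud_ExU {n : ℕ} {Bl : Qry (n + 2)} (hBl : Dfn Bl) {Φ : Fnl n} (hΦ : UD Φ) (k : ℕ) :
    UD (fun V E U ν S => ExU (fun z w => Bl V E U (Fin.cons z (Fin.cons w ν)))
      (Φ V E U ν) k S) := by
  induction k with
  | zero => exact hΦ
  | succ k ih =>
    intro m f S hS
    have h1 := ih m f S hS
    have hS' : Dfn (n := m + 2) (fun V E U ν => S V E U (ν ∘ liftR Fin.succ) ∨
        Bl V E U (ν ∘ (Fin.cons (Fin.succ 0) (Fin.cons 0 (fun i => (f i).succ.succ) :
          Fin (n + 1) → Fin (m + 2)) : Fin (n + 2) → Fin (m + 2)))) :=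
      (hS.ren _).or (hBl.ren _)
    have h2 := ih (m + 1) (fun i => (f i).succ) _ hS'
    refine (h1.or h2.ex).congr fun V E U ν => ?_
    simp only [comp_lift_succ, comp_swap]
    rfl

theorem dfn_ball {m : ℕ} {W : Qry (m + 1)} (hW : Dfn W) :
    Dfn (n := m + 2) (fun V E U ν => Ball E (fun x => W V E U (Fin.cons x fun i => ν i.succ.succ))
      (ν 0) (ν (Fin.succ 0))) := by
  have h0 : Dfn (n := m + 2) (fun V E U ν => W V E U (Fin.cons (ν 0) fun i => ν i.succ.succ)) :=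
    (hW.ren (Fin.cons 0 (fun i => i.succ.succ) : Fin (m + 1) → Fin (m + 2))).congr
      fun V E U ν => by
        rw [show ν ∘ (Fin.cons 0 (fun i => i.succ.succ) : Fin (m + 1) → Fin (m + 2)) =
          Fin.cons (ν 0) (fun i => ν i.succ.succ) from by
            funext i; refine Fin.cases ?_ (fun j => ?_) i <;> rfl]
  have h1 : Dfn (n := m + 2) (fun V E U ν =>
      W V E U (Fin.cons (ν (Fin.succ 0)) fun i => ν i.succ.succ)) :=
    (hW.ren (Fin.cons (Fin.succ 0) (fun i => i.succ.succ) : Fin (m + 1) → Fin (m + 2))).congr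
      fun V E U ν => by
        rw [show ν ∘ (Fin.cons (Fin.succ 0) (fun i => i.succ.succ) : Fin (m + 1) → Fin (m + 2)) =
          Fin.cons (ν (Fin.succ 0)) (fun i => ν i.succ.succ) from by
            funext i; refine Fin.cases ?_ (fun j => ?_) i <;> rfl]
  have h2 : Dfn (n := m + 3) (fun V E U ν =>
      W V E U (Fin.cons (ν 0) fun i => ν i.succ.succ.succ)) :=
    (hW.ren (Fin.cons 0 (fun i => i.succ.succ.succ) : Fin (m + 1) → Fin (m + 3))).congr
      fun V E U ν => by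
        rw [show ν ∘ (Fin.cons 0 (fun i => i.succ.succ.succ) : Fin (m + 1) → Fin (m + 3)) =
          Fin.cons (ν 0) (fun i => ν i.succ.succ.succ) from by
            funext i; refine Fin.cases ?_ (fun j => ?_) i <;> rfl]
  have h3 : Dfn (n := m + 2) (fun V E U ν => ∃ x, W V E U (Fin.cons x fun i => ν i.succ.succ) ∧
      (E (ν 0) x ∧ E x (ν (Fin.succ 0)))) :=
    (h2.and ((Dfn.edge (Fin.succ 0) 0).and (Dfn.edge 0 (Fin.succ (Fin.succ 0))))).ex.congr
      fun V E U ν => Iff.rfl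
  exact ((h1.and h0).and ((Dfn.eq (Fin.succ 0) 0).or ((Dfn.edge 0 (Fin.succ 0)).or h3))).congr
    fun V E U ν => Iff.rfl

theorem dfn_stA {n : ℕ} : Dfn (n := n + 2) (fun _ E U ν => StA E U (ν 0) (ν (Fin.succ 0))) :=
  (Dfn.uni 0).neg.and (Dfn.edge 0 (Fin.succ 0))

theorem dfn_canA {n : ℕ} (t : Fin n) {X : Qry (n + 1)} (hX : Dfn X) :
    Dfn (n := n + 1) (fun V E U ν => CanA E U (ν t.succ)
      (fun w => X V E U (Fin.cons w fun i => ν i.succ)) (ν 0)) := by
  have h1 : Dfn (n := n + 2) (fun V E U ν =>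
      ReflTransGen (StA E U) (ν (Fin.succ 0)) (ν 0)) :=
    (Dfn.tc (dfn_stA (n := n + 2)) (Fin.succ 0) 0).congr fun V E U ν => Iff.rfl
  have h2 : Dfn (n := n + 2) (fun V E U ν =>
      X V E U (Fin.cons (ν 0) fun i => ν i.succ.succ)) :=
    (hX.ren (Fin.cons 0 (fun i => i.succ.succ) : Fin (n + 1) → Fin (n + 2))).congr
      fun V E U ν => by
        rw [show ν ∘ (Fin.cons 0 (fun i => i.succ.succ) : Fin (n + 1) → Fin (n + 2)) =
          Fin.cons (ν 0) (fun i => ν i.succ.succ) from by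
            funext i; refine Fin.cases ?_ (fun j => ?_) i <;> rfl]
  exact (h1.and ((Dfn.eq 0 t.succ.succ).or ((Dfn.uni 0).and h2))).ex.congr
    fun V E U ν => Iff.rfl

theorem dfn_loseA (k : ℕ) : Dfn (n := 2) (fun _ E U ν => LoseA E U k (ν 1) (ν 0)) := by
  have hW2 : Dfn (n := 3) (fun _ _ U ν => U (ν 0) ∧ ν 0 ≠ ν 2) :=
    (Dfn.uni 0).and (Dfn.eq 0 2).neg
  have hB2 := dfn_ball hW2
  have hin : UD (n := 2) (fun V E U ν X => Trap E U (RegA E U (ν 1) X) (ν 0)) := by
    intro m f X hX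
    have hR : Dfn (n := m + 1) (fun V E U ν => RegA E U (ν (f 1).succ)
        (fun w => X V E U (Fin.cons w fun i => ν i.succ)) (ν 0)) :=
      ((Dfn.eq 0 (f 1).succ).neg).and
        (((Dfn.uni 0).neg.and (dfn_canA (f 1) hX).neg).or ((Dfn.uni 0).and
          (hX.neg.congr fun V E U ν => by
            have hc : (Fin.cons (ν 0) fun i => ν i.succ : Fin (m + 1) → V) = ν := by
              funext i; refine Fin.cases ?_ (fun j => ?_) i <;> rfl
            beta_reduce
            rw [hc])))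
    exact (dfn_trap (f 0) hR).congr fun V E U ν => Iff.rfl
  have h := ud_ExU hB2 hin k 2 id (fun _ _ _ _ => False)
    (((Dfn.eq (n := 3) 0 0).neg).congr fun V E U ν => by simp)
  exact h.congr fun V E U ν => Iff.rfl

theorem dfn_stB {n : ℕ} (t i j : Fin n) :
    Dfn (n := n) (fun _ E U ν => StB E U (ν t) (ν i) (ν j)) :=
  ((Dfn.uni i).and (Dfn.eq i t).neg).and ((Dfn.edge i j).and (Dfn.eq j t).neg)

theorem dfn_rB {n : ℕ} (t i j : Fin n) :
    Dfn (n := n) (fun _ E U ν => ReflTransGen (StB E U (ν t)) (ν i) (ν j)) :=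
  (Dfn.tc (dfn_stB (n := n + 2) t.succ.succ 0 (Fin.succ 0)) i j).congr fun V E U ν => Iff.rfl

theorem dfn_esc {n : ℕ} (t : Fin n) {Y : Qry (n + 1)} (hY : Dfn Y) :
    Dfn (n := n + 1) (fun V E U ν => Esc E U (ν t.succ)
      (fun w => Y V E U (Fin.cons w fun i => ν i.succ)) (ν 0)) := by
  have h1 : Dfn (n := n + 2) (fun V E U ν =>
      ReflTransGen (StB E U (ν t.succ.succ)) (ν (Fin.succ 0)) (ν 0)) :=
    dfn_rB t.succ.succ (Fin.succ 0) 0
  have h2 : Dfn (n := n + 2) (fun V E U ν =>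
      Y V E U (Fin.cons (ν 0) fun i => ν i.succ.succ)) :=
    (hY.ren (Fin.cons 0 (fun i => i.succ.succ) : Fin (n + 1) → Fin (n + 2))).congr
      fun V E U ν => by
        rw [show ν ∘ (Fin.cons 0 (fun i => i.succ.succ) : Fin (n + 1) → Fin (n + 2)) =
          Fin.cons (ν 0) (fun i => ν i.succ.succ) from by
            funext i; refine Fin.cases ?_ (fun j => ?_) i <;> rfl]
  have h3 : Dfn (n := n + 2) (fun V E U ν => ∀ x, ¬ E (ν 0) x) :=
    ((Dfn.edge (n := n + 3) (Fin.succ 0) 0).neg).all.congr fun V E U ν => Iff.rfl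
  have h4 : Dfn (n := n + 2) (fun V E U ν => ∃ q, StB E U (ν t.succ.succ) (ν 0) q ∧
      ReflTransGen (StB E U (ν t.succ.succ)) q (ν 0)) :=
    ((dfn_stB (n := n + 3) t.succ.succ.succ (Fin.succ 0) 0).and
      (dfn_rB (n := n + 3) t.succ.succ.succ 0 (Fin.succ 0))).ex.congr fun V E U ν => Iff.rfl
  exact (h1.and (((Dfn.uni 0).neg.and h2).or ((Dfn.uni 0).and (h3.or h4)))).ex.congr
    fun V E U ν => Iff.rfl

theorem dfn_loseB (k : ℕ) : Dfn (n := 2) (fun _ E U ν => LoseB E U k (ν 1) (ν 0)) := by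
  have hW1 : Dfn (n := 3) (fun _ _ U ν => ¬ U (ν 0)) := (Dfn.uni 0).neg
  have hB1 := dfn_ball hW1
  have hin : UD (n := 2) (fun V E U ν Y => Trap E U (RegB E U (ν 1) Y) (ν 0)) := by
    intro m f Y hY
    have hR : Dfn (n := m + 1) (fun V E U ν => RegB E U (ν (f 1).succ)
        (fun w => Y V E U (Fin.cons w fun i => ν i.succ)) (ν 0)) :=
      ((Dfn.eq 0 (f 1).succ).neg).and
        (((Dfn.uni 0).neg.and (hY.congr fun V E U ν => by
            have hc : (Fin.cons (ν 0) fun i => ν i.succ : Fin (m + 1) → V) = ν := by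
              funext i; refine Fin.cases ?_ (fun j => ?_) i <;> rfl
            beta_reduce
            rw [hc])).or ((Dfn.uni 0).and
          (dfn_esc (f 1) hY)))
    exact (dfn_trap (f 0) hR).congr fun V E U ν => Iff.rfl
  have h := ud_ExU hB1 hin k 2 id (fun _ _ _ _ => False)
    (((Dfn.eq (n := 3) 0 0).neg).congr fun V E U ν => by simp)
  exact h.congr fun V E U ν => Iff.rfl

theorem main (k : ℕ) : ∃ φ : Fo 2,
    (∀ (V : Type) (E : V → V → Prop) (U : V → Prop) (v t : V), Win E U t v →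
      φ.Holds E U ![v, t]) ∧
    ∀ (V : Type) [Finite V] (E : V → V → Prop) (U : V → Prop) (t : V),
      (IndepLe E (fun w => ¬ U w) k ∨ IndepLe E (fun w => U w ∧ w ≠ t) k) →
      ∀ v, φ.Holds E U ![v, t] ↔ Win E U t v := by
  obtain ⟨φ, hφ⟩ := (dfn_loseA k).neg.and (dfn_loseB k).neg
  have hφ' : ∀ (V : Type) (E : V → V → Prop) (U : V → Prop) (v t : V),
      φ.Holds E U ![v, t] ↔ ¬ LoseA E U k t v ∧ ¬ LoseB E U k t v :=
    fun V E U v t => hφ V E U ![v, t]
  have hs : ∀ (V : Type) (E : V → V → Prop) (U : V → Prop) (v t : V), Win E U t v →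
      φ.Holds E U ![v, t] := by
    intro V E U v t hw
    rw [hφ']
    constructor
    · intro h
      obtain ⟨X, h⟩ := ExU_sound k _ h
      exact trap_not_win h (fun h => h.1 rfl) hw
    · intro h
      obtain ⟨X, h⟩ := ExU_sound k _ h
      exact trap_not_win h (fun h => h.1 rfl) hw
  refine ⟨φ, hs, fun V _ E U t hk v => ⟨fun h => ?_, hs V E U v t⟩⟩
  rw [hφ'] at h
  rcases hk with h1 | h2
  · rw [loseB_iff h1, not_not] at h
    exact h.2
  · rw [loseA_iff h2, not_not] at h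
    exact h.1

end Pool.Agent.H255R3.OS
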